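import Pool.Agent.Helper3.AK.Goals3

/-!
Packet CTB: many repeated passes.
-/

set_option linter.unusedVariables false

namespace Pool.Agent.Helper3.AK

open Equiv

open Classical in
/-- Different points have different tails at the same time. -/
theorem tail_injective {n K : ℕ} (x : Fin K → Alt n) (u : ℕ → Perm (Fin n)) (g : ℕ → Letter K)
    (t : ℕ) : Function.Injective (tail x u g t) := by
  intro p p' h
  unfold tail at h
  split_ifs at h with h1
  · exact (zpos x u g (t + 1)).injective h
  · exact (zpos x u g t).injective ((u t).injective h)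

open Classical in
/-- **CTB** (many repeated passes). -/
theorem ctb : S_CTB := by
  intro n r K T x u g c hM
  set I : Finset (ℕ × (Fin r × Bool)) := Finset.range T ×ˢ Finset.univ with hI
  set A : Finset (ℕ × (Fin r × Bool)) := I.filter (fun s => ¬ Single x u g T c s.1 s.2) with hA
  set B : Finset (ℕ × (Fin r × Bool)) := I.filter (fun s => ∃ t' < s.1, ∃ q' : Fin r × Bool,
    (g t').1 = (g s.1).1 ∧ tail x u g t' (c q') = tail x u g s.1 (c s.2)) with hB
  set e : ℕ × (Fin r × Bool) → Fin K × Fin n :=
    fun s => ((g s.1).1, tail x u g s.1 (c s.2)) with he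
  -- the sum of `rep`
  have hrep : ∑ t ∈ Finset.range T, rep x u g c t = B.card := by
    rw [hB, Finset.card_filter, hI, Finset.sum_product]
    refine Finset.sum_congr rfl (fun t _ => ?_)
    unfold rep
    rw [Nat.card_eq_fintype_card, Fintype.card_subtype, Finset.card_filter]
  -- the lower bound for `A`
  have hAcard : r * T ≤ A.card := by
    have h1 : ∀ s : ℕ × Fin r, s.1 < T → ∃ b : Bool, ¬ Single x u g T c s.1 (s.2, b) := by
      rintro ⟨t, i⟩ ht
      rcases hM t ht i with h | h
      · exact ⟨false, h⟩
      · exact ⟨true, h⟩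
    choose! b hb using h1
    have h2 : (Finset.range T ×ˢ (Finset.univ : Finset (Fin r))).card ≤ A.card := by
      refine Finset.card_le_card_of_injOn (fun s => (s.1, (s.2, b s))) ?_ ?_
      · rintro ⟨t, i⟩ hs
        have hs' : t < T := by
          simpa using hs
        rw [hA, hI]
        simp only [Finset.coe_filter, Set.mem_ofPred_eq, Finset.mem_product, Finset.mem_range,
          Finset.mem_univ, and_true]
        exact ⟨hs', hb (t, i) hs'⟩
      · rintro ⟨t, i⟩ _ ⟨t', i'⟩ _ h
        simp only [Prod.mk.injEq] at h
        rw [h.1, h.2.1]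
    rw [Finset.card_product, Finset.card_range, Finset.card_univ, Fintype.card_fin,
      mul_comm] at h2
    exact h2
  -- the classes
  have hcls : ∀ ε : Fin K × Fin n, (A.filter (fun s => e s = ε)).card ≤
      2 * (B.filter (fun s => e s = ε)).card := by
    intro ε
    rcases (A.filter (fun s => e s = ε)).eq_empty_or_nonempty with h0 | h0
    · rw [h0]
      simp
    · obtain ⟨s₀, hs₀, hmin⟩ := Finset.exists_min_image _ (fun s => s.1) h0
      have hsame : ∀ s s' : ℕ × (Fin r × Bool), e s = e s' → s.1 = s'.1 → s = s' := by
        rintro ⟨t, q⟩ ⟨t', q'⟩ h1 h2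
        simp only at h2
        subst h2
        simp only [he, Prod.mk.injEq, true_and] at h1
        have h3 := c.injective (tail_injective x u g t h1)
        rw [h3]
      have hAI : ∀ s, s ∈ A.filter (fun s => e s = ε) ↔
          s.1 < T ∧ ¬ Single x u g T c s.1 s.2 ∧ e s = ε := by
        intro s
        rw [hA, hI]
        simp only [Finset.mem_filter, Finset.mem_product, Finset.mem_range, Finset.mem_univ,
          and_true, and_assoc]
      have hBI : ∀ s, s ∈ B.filter (fun s => e s = ε) ↔
          s.1 < T ∧ (∃ t' < s.1, ∃ q' : Fin r × Bool,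
            (g t').1 = (g s.1).1 ∧ tail x u g t' (c q') = tail x u g s.1 (c s.2)) ∧ e s = ε := by
        intro s
        rw [hB, hI]
        simp only [Finset.mem_filter, Finset.mem_product, Finset.mem_range, Finset.mem_univ,
          and_true, and_assoc]
      have hsub : (A.filter (fun s => e s = ε)).erase s₀ ⊆ B.filter (fun s => e s = ε) := by
        intro s hs
        rw [Finset.mem_erase] at hs
        obtain ⟨hne, hs⟩ := hs
        have h1 := (hAI s).1 hs
        have h2 := (hAI s₀).1 hs₀
        rw [hBI]
        have h3 : e s₀ = e s := h2.2.2.trans h1.2.2.symm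
        have h4 : s₀.1 < s.1 := by
          rcases (hmin s hs).lt_or_eq with h | h
          · exact h
          · exact absurd (hsame _ _ h3 h).symm hne
        simp only [he, Prod.mk.injEq] at h3
        exact ⟨h1.1, ⟨s₀.1, h4, s₀.2, h3.1, h3.2⟩, h1.2.2⟩
      have h5 : (A.filter (fun s => e s = ε)).card ≤ (B.filter (fun s => e s = ε)).card + 1 := by
        have h6 := Finset.card_le_card hsub
        rw [Finset.card_erase_of_mem hs₀] at h6
        omega
      -- a partner
      have h7 : 1 ≤ (B.filter (fun s => e s = ε)).card := by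
        rw [Nat.one_le_iff_ne_zero, Finset.card_ne_zero]
        have h2 := (hAI s₀).1 hs₀
        have h8 := h2.2.1
        unfold Single at h8
        push Not at h8
        obtain ⟨t', ht', q', hne, hg, ht⟩ := h8
        have h9 : e (t', q') = e s₀ := by
          simp only [he, Prod.mk.injEq]
          exact ⟨hg, ht⟩
        have h10 : (t', q') ∈ A.filter (fun s => e s = ε) := by
          rw [hAI]
          refine ⟨ht', ?_, h9.trans h2.2.2⟩
          intro hs
          exact hs s₀.1 h2.1 s₀.2 (fun h => hne h.symm) hg.symm ht.symm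
        exact ⟨(t', q'), hsub (Finset.mem_erase.2 ⟨hne, h10⟩)⟩
      omega
  have hsumA : A.card = ∑ ε : Fin K × Fin n, (A.filter (fun s => e s = ε)).card :=
    Finset.card_eq_sum_card_fiberwise (fun _ _ => Finset.mem_coe.2 (Finset.mem_univ _))
  have hsumB : B.card = ∑ ε : Fin K × Fin n, (B.filter (fun s => e s = ε)).card :=
    Finset.card_eq_sum_card_fiberwise (fun _ _ => Finset.mem_coe.2 (Finset.mem_univ _))
  rw [hrep]
  refine hAcard.trans ?_
  rw [hsumA, hsumB, Finset.mul_sum]
  exact Finset.sum_le_sum (fun ε _ => hcls ε)

end Pool.Agent.Helper3.AK
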